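import Pool.Agent.Lib.MP_f11a48_ag.SH.D.Defs

/-! # part (d), module COUNT -/

set_option autoImplicit false

open Filter Topology Metric

namespace Pool.Agent.Lib.MPf11a48.SH.D

namespace CountM

/-- monomial functions with all exponents `< m` -/
def W (n m : ℕ) : Submodule ℂ ((Fin n → ℂ) → ℂ) :=
  Submodule.span ℂ (Set.range fun α : Fin n → Fin m => fun y : Fin n → ℂ => ∏ i, y i ^ (α i : ℕ))

instance (n m : ℕ) : FiniteDimensional ℂ (W n m) :=
  FiniteDimensional.span_of_finite ℂ (Set.finite_range _)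

theorem finrank_W (n m : ℕ) : Module.finrank ℂ (W n m) ≤ m ^ n := by
  have h := finrank_range_le_card (R := ℂ)
    (b := fun α : Fin n → Fin m => fun y : Fin n → ℂ => ∏ i, y i ^ (α i : ℕ))
  rw [Fintype.card_fun, Fintype.card_fin, Fintype.card_fin] at h
  exact h

theorem multi_mem {n j m : ℕ} (hj : j < m) (M : (Fin n → ℂ) [×j]→L[ℂ] ℂ) :
    (fun y : Fin n → ℂ => M fun _ => y) ∈ W n m := by
  classical
  have h : (fun y : Fin n → ℂ => M fun _ => y) =
      ∑ σ : Fin j → Fin n, (M fun l => Pi.single (σ l) 1) •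
        fun y : Fin n → ℂ => ∏ i, y i ^ (Finset.univ.filter fun l => σ l = i).card := by
    funext y
    have hy : y = ∑ i, y i • (Pi.single i 1 : Fin n → ℂ) := by
      funext k
      simp [Finset.sum_apply, Pi.single_apply]
    have h1 : (M fun _ => y) = M fun _ => ∑ i, y i • (Pi.single i 1 : Fin n → ℂ) := by
      rw [← hy]
    rw [h1, M.map_sum]
    rw [Finset.sum_apply]
    refine Finset.sum_congr rfl fun σ _ => ?_
    rw [ContinuousMultilinearMap.map_smul_univ, Pi.smul_apply, smul_eq_mul, smul_eq_mul, mul_comm]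
    congr 1
    rw [← Finset.prod_fiberwise (s := Finset.univ) (g := σ) (f := fun l => y (σ l))]
    refine Finset.prod_congr rfl fun i _ => ?_
    rw [Finset.prod_congr rfl (g := fun _ => y i)]
    · rw [Finset.prod_const]
    · intro l hl
      rw [(Finset.mem_filter.1 hl).2]
  rw [h]
  refine Submodule.sum_mem _ fun σ _ => Submodule.smul_mem _ _ (Submodule.subset_span ?_)
  refine ⟨fun i => ⟨(Finset.univ.filter fun l => σ l = i).card, ?_⟩, rfl⟩
  refine lt_of_le_of_lt ?_ hj
  exact (Finset.card_le_univ _).trans (by simp)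

theorem partialSum_mem {n : ℕ} (p : FormalMultilinearSeries ℂ (Fin n → ℂ) ℂ) (m : ℕ) :
    (fun y : Fin n → ℂ => p.partialSum m y) ∈ W n m := by
  have h : (fun y : Fin n → ℂ => p.partialSum m y) =
      ∑ j ∈ Finset.range m, fun y : Fin n → ℂ => p j fun _ => y := by
    funext y
    rw [FormalMultilinearSeries.partialSum, Finset.sum_apply]
  rw [h]
  exact Submodule.sum_mem _ fun j hj => multi_mem (Finset.mem_range.1 hj) (p j)

/-- if the partial sum of order `m + 1` vanishes then the function is `o(|y|^m)` -/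
theorem little {n m : ℕ} {f : (Fin n → ℂ) → ℂ} {z0 : Fin n → ℂ}
    {p : FormalMultilinearSeries ℂ (Fin n → ℂ) ℂ} (hp : HasFPowerSeriesAt f p z0)
    (h0 : ∀ y, p.partialSum (m + 1) y = 0) :
    f =o[𝓝 z0] fun w => ‖w - z0‖ ^ m := by
  have h1 := hp.isBigO_sub_partialSum_pow (m + 1)
  simp only [h0, sub_zero] at h1
  have h2 : Tendsto (fun w : Fin n → ℂ => w - z0) (𝓝 z0) (𝓝 0) := by
    have : Tendsto (fun w : Fin n → ℂ => w - z0) (𝓝 z0) (𝓝 (z0 - z0)) :=
      (continuous_id.sub continuous_const).tendsto z0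
    simpa using this
  have h3 := h1.comp_tendsto h2
  have h4 : ((fun y => f (z0 + y)) ∘ fun w => w - z0) = f := by
    funext w
    simp
  rw [h4] at h3
  refine h3.trans_isLittleO ?_
  have h5 : (fun w : Fin n → ℂ => ‖w - z0‖ ^ m * ‖w - z0‖) =o[𝓝 z0]
      fun w => ‖w - z0‖ ^ m * 1 := by
    refine (Asymptotics.isBigO_refl _ _).mul_isLittleO ?_
    rw [Asymptotics.isLittleO_one_iff]
    have := h2.norm
    simpa using this
  simpa [Function.comp_def, pow_succ] using h5

theorem schwarz {n m : ℕ} {f : (Fin n → ℂ) → ℂ} {z0 z : Fin n → ℂ} {R B : ℝ}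
    (hd : DifferentiableOn ℂ f (ball z0 R)) (hB : ∀ w ∈ ball z0 R, ‖f w‖ ≤ B)
    (h0 : f z0 = 0) (ho : f =o[𝓝 z0] fun w => ‖w - z0‖ ^ m) (hz : z ∈ ball z0 R) :
    ‖f z‖ ≤ B * (dist z z0 / R) ^ (m + 1) := by
  have h := Complex.dist_le_mul_div_pow_of_mapsTo_ball_of_isLittleO (f := f) (c := z0) (z := z)
    (R₁ := R) (R₂ := B) (n := m) hd ?_ ?_ hz
  · simpa [h0, dist_zero_right] using h
  · intro w hw
    rw [h0, mem_closedBall, dist_zero_right]
    exact hB w hw
  · simpa [h0] using ho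

end CountM

open CountM in
theorem specCOUNT : SpecCOUNT := by
  intro n X K φ hX hK hKX hφ hpos
  -- a radius
  obtain ⟨R, hR, hRX⟩ := hK.exists_cthickening_subset_open hX hKX
  have hK' : IsCompact (cthickening R K) := hK.cthickening
  -- the weight on the thickening
  obtain ⟨M, hM0, hM⟩ : ∃ M : ℝ, 0 < M ∧ ∀ z ∈ cthickening R K, ∀ w ∈ K, φ w ≤ M * φ z := by
    rcases K.eq_empty_or_nonempty with hKe | hKn
    · exact ⟨1, one_pos, fun z _ w hw => by simp [hKe] at hw⟩
    have hne : (cthickening R K).Nonempty := hKn.mono (self_subset_cthickening K)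
    obtain ⟨a, ha, hamin⟩ := hK'.exists_isMinOn hne (hφ.mono hRX)
    obtain ⟨b, hb, hbmax⟩ := hK.exists_isMaxOn hKn (hφ.mono hKX)
    have ha0 := hpos a (hRX ha)
    have hb0 := hpos b (hKX hb)
    refine ⟨φ b / φ a, by positivity, fun z hz w hw => ?_⟩
    have h1 : φ a ≤ φ z := hamin hz
    have h2 : φ w ≤ φ b := hbmax hw
    calc φ w ≤ φ b := h2
      _ = φ b / φ a * φ a := by field_simp
      _ ≤ φ b / φ a * φ z := by gcongr
  obtain ⟨L, hL⟩ : ∃ L : ℕ, M < 4 ^ L := pow_unbounded_of_one_lt M (by norm_num)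
  -- a finite net
  obtain ⟨t, htK, htfin, htcov⟩ := hK.finite_cover_balls (e := R / 4) (by positivity)
  refine ⟨htfin.toFinset.card * (L + 1) ^ n, ?_⟩
  intro k hk ι _ F hcard hana hdom
  classical
  have hanat : ∀ i, ∀ z : t, ∃ p, HasFPowerSeriesAt (F i) p z.1 := fun i z =>
    hana i z.1 (hKX (htK z.2))
  choose p hp using hanat
  set m := (L + 1) * k with hm
  have hm1 : 1 ≤ m := Nat.mul_pos (Nat.succ_pos L) hk
  have : Fintype t := htfin.fintype
  -- the linear system
  let Φ : (ι → ℂ) →ₗ[ℂ] (t → W n m) :=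
    LinearMap.pi fun z : t =>
      ∑ i, (LinearMap.proj (R := ℂ) (φ := fun _ : ι => ℂ) i).smulRight
        (⟨fun y => (p i z).partialSum m y, partialSum_mem (p i z) m⟩ : W n m)
  have hfin : Module.finrank ℂ (t → W n m) < Module.finrank ℂ (ι → ℂ) := by
    rw [Module.finrank_pi_fintype, Module.finrank_pi]
    refine lt_of_le_of_lt ?_ hcard
    refine (Finset.sum_le_card_nsmul _ _ (m ^ n) fun z _ => finrank_W n m).trans ?_
    rw [smul_eq_mul, Finset.card_univ, hm, mul_pow, ← mul_assoc]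
    gcongr
    rw [Fintype.card_of_finset' htfin.toFinset (by simp)]
  obtain ⟨c, hc0, hcΦ⟩ : ∃ c : ι → ℂ, c ≠ 0 ∧ Φ c = 0 := by
    have hker := LinearMap.ker_ne_bot_of_finrank_lt (f := Φ) hfin
    obtain ⟨c, hc, hc0⟩ := Submodule.exists_mem_ne_zero_of_ne_bot hker
    exact ⟨c, hc0, hc⟩
  refine ⟨c, hc0, ?_⟩
  set f : (Fin n → ℂ) → ℂ := fun z => ∑ i, c i * F i z with hf
  have hfana : AnalyticOnNhd ℂ f X := by
    have : f = ∑ i, fun z => c i * F i z := by
      funext z
      simp [hf, Finset.sum_apply]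
    rw [this]
    exact Finset.analyticOnNhd_sum _ fun i _ => analyticOnNhd_const.mul (hana i)
  -- the power series of f at the points of the net
  have hser : ∀ z : t, ∃ q : FormalMultilinearSeries ℂ (Fin n → ℂ) ℂ, HasFPowerSeriesAt f q z.1 ∧
      ∀ y, q.partialSum m y = 0 := by
    intro z
    have key : ∀ s : Finset ι, HasFPowerSeriesAt (fun w => ∑ i ∈ s, c i * F i w)
        (∑ i ∈ s, c i • p i z) z.1 := by
      intro s
      induction s using Finset.induction_on with
      | empty =>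
        simp only [Finset.sum_empty]
        exact (hasFPowerSeriesOnBall_const (c := (0 : ℂ)) (e := z.1)).hasFPowerSeriesAt.congr
          (Filter.EventuallyEq.refl _ _) |> fun h => by
            have e : (constFormalMultilinearSeries ℂ (Fin n → ℂ) (0 : ℂ)) = 0 := by
              ext j v
              cases j <;> simp [constFormalMultilinearSeries]
            rw [e] at h
            exact h
      | insert i s his ih =>
        simp only [Finset.sum_insert his]
        have h1 : HasFPowerSeriesAt (fun w => c i * F i w) (c i • p i z) z.1 := by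
          have := (hp i z).const_smul (c := c i)
          simpa [smul_eq_mul, Pi.smul_def] using this
        exact h1.add ih
    refine ⟨∑ i, c i • p i z, key Finset.univ, fun y => ?_⟩
    have h1 : (Φ c z : (Fin n → ℂ) → ℂ) y = 0 := by
      rw [hcΦ]
      rfl
    have h2 : (Φ c z : (Fin n → ℂ) → ℂ) y = ∑ i, c i * (p i z).partialSum m y := by
      simp only [Φ, LinearMap.pi_apply, LinearMap.sum_apply, LinearMap.smulRight_apply,
        LinearMap.proj_apply]
      rw [Submodule.coe_sum]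
      simp [Finset.sum_apply]
    rw [FormalMultilinearSeries.partialSum]
    have h3 : ∀ j, (∑ i, c i • p i z) j (fun _ => y) = ∑ i, c i * p i z j fun _ => y := by
      intro j
      have h4 : (∑ i, c i • p i z) j = ∑ i, c i • p i z j := Finset.sum_apply j _ _
      rw [h4]
      simp [ContinuousMultilinearMap.sum_apply]
    simp only [h3]
    rw [Finset.sum_comm, ← h1, h2]
    refine Finset.sum_congr rfl fun i _ => ?_
    rw [FormalMultilinearSeries.partialSum, Finset.mul_sum]
  -- f vanishes on K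
  have hfK : ∀ w ∈ K, f w = 0 := by
    by_contra hcon
    push Not at hcon
    obtain ⟨w1, hw1, hfw1⟩ := hcon
    have hKn : K.Nonempty := ⟨w1, hw1⟩
    have hcontf : ContinuousOn (fun z => ‖f z‖ * φ z ^ k) K :=
      ((hfana.continuousOn.mono hKX).norm).mul ((hφ.mono hKX).pow k)
    obtain ⟨w0, hw0, hmax⟩ := hK.exists_isMaxOn hKn hcontf
    set Sv := ‖f w0‖ * φ w0 ^ k with hSv
    have hS0 : 0 < Sv := by
      have h1 : ‖f w1‖ * φ w1 ^ k ≤ Sv := hmax hw1
      have h2 : 0 < ‖f w1‖ * φ w1 ^ k :=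
        mul_pos (norm_pos_iff.2 hfw1) (pow_pos (hpos w1 (hKX hw1)) k)
      linarith
    have hφ0 := hpos w0 (hKX hw0)
    -- bound on the thickening
    have hbd : ∀ z ∈ cthickening R K, ‖f z‖ ≤ M ^ k * ‖f w0‖ := by
      intro z hz
      have hzX := hRX hz
      have hφz := hpos z hzX
      obtain ⟨w, hw, hle⟩ := hdom c z hzX
      have h1 : ‖f z‖ * φ z ^ k ≤ ‖f w0‖ * φ w0 ^ k := hle.trans (hmax hw)
      have h2 : φ w0 ^ k ≤ M ^ k * φ z ^ k := by
        rw [← mul_pow]
        exact pow_le_pow_left₀ hφ0.le (hM z hz w0 hw0) k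
      have h3 : ‖f z‖ * φ z ^ k ≤ (M ^ k * ‖f w0‖) * φ z ^ k := by
        calc ‖f z‖ * φ z ^ k ≤ ‖f w0‖ * φ w0 ^ k := h1
          _ ≤ ‖f w0‖ * (M ^ k * φ z ^ k) := by gcongr
          _ = _ := by ring
      exact le_of_mul_le_mul_right h3 (pow_pos hφz k)
    obtain ⟨z1, hz1, hball⟩ : ∃ z1 ∈ t, w0 ∈ ball z1 (R / 4) := by
      have := htcov hw0
      simpa using this
    obtain ⟨q, hq, hq0⟩ := hser ⟨z1, hz1⟩
    obtain ⟨m', hm'⟩ : ∃ m', m = m' + 1 := ⟨m - 1, by omega⟩
    have hsub : ball z1 R ⊆ cthickening R K := by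
      intro w hw
      refine mem_cthickening_of_dist_le w z1 R K (htK hz1) ?_
      exact (mem_ball.1 hw).le
    have ho : f =o[𝓝 z1] fun w => ‖w - z1‖ ^ m' := by
      refine little (p := q) hq ?_
      intro y
      rw [← hm']
      exact hq0 y
    have hz10 : f z1 = 0 := by
      have h1 := hq.coeff_zero (fun i => i.elim0)
      have h2 := hq0 0
      rw [hm', FormalMultilinearSeries.partialSum] at h2
      rw [← h1]
      rw [Finset.sum_eq_single_of_mem 0 (by simp)] at h2
      · rw [← h2]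
        congr 1
        funext i
        exact i.elim0
      · intro j _ hj
        obtain ⟨j', rfl⟩ := Nat.exists_eq_succ_of_ne_zero hj
        exact (q (j' + 1)).map_coord_zero (m := fun _ => 0) 0 rfl
    have hsch := schwarz (f := f) (z0 := z1) (z := w0) (R := R) (B := M ^ k * ‖f w0‖) (m := m')
      ((hfana.differentiableOn).mono (hsub.trans hRX)) (fun w hw => hbd w (hsub hw)) hz10 ho
      (ball_subset_ball (by linarith) hball)
    rw [← hm'] at hsch
    have hr : dist w0 z1 / R ≤ 1 / 4 := by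
      rw [div_le_iff₀ hR]
      have := (mem_ball.1 hball).le
      linarith
    have h5 : ‖f w0‖ ≤ M ^ k * ‖f w0‖ * (1 / 4) ^ m := by
      refine hsch.trans ?_
      gcongr
    have hw00 : 0 < ‖f w0‖ := by
      by_contra h
      have h' : ‖f w0‖ = 0 := le_antisymm (not_lt.1 h) (norm_nonneg _)
      rw [hSv, h', zero_mul] at hS0
      exact lt_irrefl _ hS0
    have h6 : M ^ k * (1 / 4 : ℝ) ^ m < 1 := by
      have h7 : M ^ k * (1 / 4 : ℝ) ^ m = (M / 4 ^ (L + 1)) ^ k := by
        rw [hm, pow_mul, div_pow, div_pow, one_pow]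
        rw [div_pow, one_pow]
        ring
      rw [h7]
      refine pow_lt_one₀ (by positivity) ?_ (by omega)
      rw [div_lt_one (by positivity)]
      calc M < 4 ^ L := hL
        _ ≤ 4 ^ (L + 1) := by gcongr <;> norm_num
    have h8 : M ^ k * ‖f w0‖ * (1 / 4) ^ m < ‖f w0‖ := by
      calc M ^ k * ‖f w0‖ * (1 / 4) ^ m = (M ^ k * (1 / 4 : ℝ) ^ m) * ‖f w0‖ := by ring
        _ < 1 * ‖f w0‖ := by gcongr
        _ = ‖f w0‖ := one_mul _
    linarith
  intro z hz
  obtain ⟨w, hw, hle⟩ := hdom c z hz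
  have h1 : ‖f w‖ = 0 := by rw [hfK w hw, norm_zero]
  rw [show ‖(fun z => ∑ i, c i * F i z) w‖ = ‖f w‖ from rfl, h1, zero_mul] at hle
  have h2 := hpos z hz
  have h3 : ‖f z‖ * φ z ^ k ≤ 0 := hle
  have h4 : ‖f z‖ ≤ 0 := by
    by_contra h5
    push Not at h5
    have := mul_pos h5 (pow_pos h2 k)
    linarith
  exact norm_le_zero_iff.1 h4

end Pool.Agent.Lib.MPf11a48.SH.D
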