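import Mathlib

/-!
# MP_f11a48_ag, PROJECT S0, part (d): Siegel - Schwarz count and the minimal relation

`Setup n`: an open connected set `X` of `C^n`, a compact `K` inside it, a positive continuous
weight `phi`, and maps `act g` (no group structure needed) which bring every point of `X` into
`K`.  `Form`: analytic on `X` with `f (g z) = fac g z * f z`, where `|fac g z| * phi (g z) = phi z`.
Everything of part (d) is stated with these two notions.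
-/

set_option autoImplicit false

open Filter Topology Metric

namespace Pool.Agent.Lib.MPf11a48.SH.D

/-- the weighted absolute value of `f` at each point of `X` is bounded by that at some point
of `K` -/
def Dom {n : ℕ} (X K : Set (Fin n → ℂ)) (φ : (Fin n → ℂ) → ℝ) (k : ℕ)
    (f : (Fin n → ℂ) → ℂ) : Prop :=
  ∀ z ∈ X, ∃ w ∈ K, ‖f z‖ * φ z ^ k ≤ ‖f w‖ * φ w ^ k

structure Setup (n : ℕ) where
  X : Set (Fin n → ℂ)
  K : Set (Fin n → ℂ)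
  φ : (Fin n → ℂ) → ℝ
  G : Type
  act : G → (Fin n → ℂ) → (Fin n → ℂ)
  fac : G → (Fin n → ℂ) → ℂ
  open_X : IsOpen X
  conn_X : IsPreconnected X
  nonempty_X : X.Nonempty
  compact_K : IsCompact K
  K_sub : K ⊆ X
  cont_φ : ContinuousOn φ X
  pos_φ : ∀ z ∈ X, 0 < φ z
  cocompact : ∀ z ∈ X, ∃ γ, act γ z ∈ K
  inv_φ : ∀ γ, ∀ z ∈ X, act γ z ∈ K → ‖fac γ z‖ * φ (act γ z) = φ z

/-- the forms: analytic on `X`, with the automorphy factor `fac` -/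
def Setup.Form {n : ℕ} (S : Setup n) (f : (Fin n → ℂ) → ℂ) : Prop :=
  AnalyticOnNhd ℂ f S.X ∧ ∀ γ, ∀ z ∈ S.X, S.act γ z ∈ S.K → f (S.act γ z) = S.fac γ z * f z

/-- (d1) the count: on an open `X` with compact `K` and weight `phi`, there is `C` such that more
than `C k^n` functions, all of whose linear combinations are dominated on `K` in weight `k`, are
linearly dependent on `X`. -/
def SpecCOUNT : Prop :=
  ∀ (n : ℕ) (X K : Set (Fin n → ℂ)) (φ : (Fin n → ℂ) → ℝ), IsOpen X → IsCompact K → K ⊆ X →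
    ContinuousOn φ X → (∀ z ∈ X, 0 < φ z) →
    ∃ C : ℕ, ∀ k : ℕ, 1 ≤ k → ∀ (ι : Type) [Fintype ι] (F : ι → (Fin n → ℂ) → ℂ),
      C * k ^ n < Fintype.card ι → (∀ i, AnalyticOnNhd ℂ (F i) X) →
      (∀ c : ι → ℂ, Dom X K φ k (fun z => ∑ i, c i * F i z)) →
      ∃ c : ι → ℂ, c ≠ 0 ∧ ∀ z ∈ X, ∑ i, c i * F i z = 0

/-- (d2) any `n + 2` forms satisfy a nontrivial homogeneous relation -/
def SpecREL : Prop :=
  ∀ (n : ℕ) (S : Setup n) (u : Fin (n + 2) → (Fin n → ℂ) → ℂ), (∀ i, S.Form (u i)) →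
    ∃ (k : ℕ) (P : MvPolynomial (Fin (n + 2)) ℂ), P.IsHomogeneous k ∧ P ≠ 0 ∧
      ∀ z ∈ S.X, MvPolynomial.eval (fun i => u i z) P = 0

/-- (d3) linear algebra over the algebraic numbers -/
def SpecLINQ : Prop :=
  ∀ (J : Type) [Fintype J] (V : Type) (α : J → V → ℂ) (x : J → ℂ),
    (∀ j v, IsAlgebraic ℚ (α j v)) → (∀ j, x j ≠ 0) → (∀ v, ∑ j, x j * α j v = 0) →
    (∀ y : J → ℂ, (∀ v, ∑ j, y j * α j v = 0) → ∃ μ : ℂ, ∀ j, y j = μ * x j) →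
    ∀ i j, IsAlgebraic ℚ (x i / x j)

/-- (d4) a nondegenerate point gives algebraic independence: `g 0` does not vanish at `z0` and the
only vector `v` with `g0 Dg_i v = g_i Dg0 v` for all `i` is `0`. -/
def SpecJAC : Prop :=
  ∀ (n : ℕ) (X : Set (Fin n → ℂ)) (g : Fin (n + 1) → (Fin n → ℂ) → ℂ) (z0 : Fin n → ℂ),
    IsOpen X → z0 ∈ X → (∀ i, AnalyticOnNhd ℂ (g i) X) → g 0 z0 ≠ 0 →
    (∀ v : Fin n → ℂ, (∀ i, g 0 z0 * fderiv ℂ (g i) z0 v = g i z0 * fderiv ℂ (g 0) z0 v) →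
      v = 0) →
    ∀ (P : MvPolynomial (Fin (n + 1)) ℂ) (d : ℕ), P.IsHomogeneous d → P ≠ 0 →
      ∃ z ∈ X, MvPolynomial.eval (fun i => g i z) P ≠ 0

/-- (d5) selection of `n` functions from a set `A` of functions with the same property -/
def SpecSEL : Prop :=
  ∀ (n : ℕ) (A : Set ((Fin n → ℂ) → ℂ)) (g0 : (Fin n → ℂ) → ℂ) (z0 : Fin n → ℂ),
    g0 z0 ≠ 0 →
    (∀ v : Fin n → ℂ, (∀ g ∈ A, g0 z0 * fderiv ℂ g z0 v = g z0 * fderiv ℂ g0 z0 v) → v = 0) →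
    ∃ g : Fin (n + 1) → (Fin n → ℂ) → ℂ, g 0 = g0 ∧ (∀ i : Fin n, g i.succ ∈ A ∨ g i.succ = g0) ∧
      ∀ v : Fin n → ℂ, (∀ i, g 0 z0 * fderiv ℂ (g i) z0 v = g i z0 * fderiv ℂ (g 0) z0 v) → v = 0

/-- MAIN of part (d): forms `h`, `g_0, .., g_n`; the `g_i` without homogeneous relation; two dense
sets `P_0`, `P_1` of points at which, up to a factor `rho` depending on the point, all `g_i` and
`h / d_nu` are algebraic.  Then `d_0 / d_1` is algebraic. -/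
def SpecMIN : Prop :=
  ∀ (n : ℕ) (S : Setup n) (h : (Fin n → ℂ) → ℂ) (g : Fin (n + 1) → (Fin n → ℂ) → ℂ),
    S.Form h → (∀ i, S.Form (g i)) → (∃ z ∈ S.X, h z ≠ 0) →
    (∀ (P : MvPolynomial (Fin (n + 1)) ℂ) (d : ℕ), P.IsHomogeneous d → P ≠ 0 →
      ∃ z ∈ S.X, MvPolynomial.eval (fun i => g i z) P ≠ 0) →
    ∀ (P : Fin 2 → Set (Fin n → ℂ)) (d : Fin 2 → ℂ), (∀ ν, P ν ⊆ S.X) →
      (∀ ν, S.X ⊆ closure (P ν)) → (∀ ν, d ν ≠ 0) →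
      (∀ ν, ∀ z ∈ P ν, ∃ ρ : ℂ, ρ ≠ 0 ∧ (∀ i, IsAlgebraic ℚ (g i z / ρ)) ∧
        IsAlgebraic ℚ (h z / (d ν * ρ))) →
      IsAlgebraic ℚ (d 0 / d 1)

/-- The version with a set `A` of forms and one nondegenerate point. -/
def SpecFIN : Prop :=
  ∀ (n : ℕ) (S : Setup n) (h g0 : (Fin n → ℂ) → ℂ) (A : Set ((Fin n → ℂ) → ℂ)) (z0 : Fin n → ℂ),
    S.Form h → S.Form g0 → (∀ g ∈ A, S.Form g) → (∃ z ∈ S.X, h z ≠ 0) → z0 ∈ S.X → g0 z0 ≠ 0 →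
    (∀ v : Fin n → ℂ, (∀ g ∈ A, g0 z0 * fderiv ℂ g z0 v = g z0 * fderiv ℂ g0 z0 v) → v = 0) →
    ∀ (P : Fin 2 → Set (Fin n → ℂ)) (d : Fin 2 → ℂ), (∀ ν, P ν ⊆ S.X) →
      (∀ ν, S.X ⊆ closure (P ν)) → (∀ ν, d ν ≠ 0) →
      (∀ ν, ∀ z ∈ P ν, ∃ ρ : ℂ, ρ ≠ 0 ∧ IsAlgebraic ℚ (g0 z / ρ) ∧
        (∀ g ∈ A, IsAlgebraic ℚ (g z / ρ)) ∧ IsAlgebraic ℚ (h z / (d ν * ρ))) →
      IsAlgebraic ℚ (d 0 / d 1)

end Pool.Agent.Lib.MPf11a48.SH.D
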