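import Pool.Agent.Lib.MP_f11a48_ag.SH.D.Defs

/-! # part (d), module JAC -/

set_option autoImplicit false

open Filter Topology Metric

namespace Pool.Agent.Lib.MPf11a48.SH.D

namespace JacM

theorem eval_scale {m d : ℕ} {P : MvPolynomial (Fin m) ℂ} (hP : P.IsHomogeneous d) (c : ℂ)
    (x : Fin m → ℂ) :
    MvPolynomial.eval (fun i => c * x i) P = c ^ d * MvPolynomial.eval x P := by
  rw [MvPolynomial.eval_eq', MvPolynomial.eval_eq', Finset.mul_sum]
  refine Finset.sum_congr rfl fun e he => ?_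
  have h1 : ∑ i, e i = d := by
    by_contra hne
    refine MvPolynomial.mem_support_iff.1 he (hP.coeff_eq_zero ?_)
    rwa [Finsupp.degree_eq_sum]
  have h2 : ∏ i, (c * x i) ^ e i = c ^ d * ∏ i, x i ^ e i := by
    rw [← h1, ← Finset.prod_pow_eq_pow_sum, ← Finset.prod_mul_distrib]
    exact Finset.prod_congr rfl fun i _ => mul_pow _ _ _
  rw [h2]
  ring

/-- a homogeneous polynomial which vanishes at `(1, y)` for all `y` near a point is zero -/
theorem zero_of_open {n d : ℕ} {P : MvPolynomial (Fin (n + 1)) ℂ} (hP : P.IsHomogeneous d)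
    (y0 : Fin n → ℂ) (h : ∀ᶠ y in 𝓝 y0, MvPolynomial.eval (Fin.cons 1 y : Fin (n + 1) → ℂ) P = 0) :
    P = 0 := by
  -- the dehomogenization
  let p : MvPolynomial (Fin n) ℂ :=
    MvPolynomial.bind₁ (Fin.cons 1 MvPolynomial.X : Fin (n + 1) → MvPolynomial (Fin n) ℂ) P
  have hp : ∀ y : Fin n → ℂ, MvPolynomial.eval y p =
      MvPolynomial.eval (Fin.cons 1 y : Fin (n + 1) → ℂ) P := by
    intro y
    have h1 : MvPolynomial.eval y (MvPolynomial.bind₁
        (Fin.cons 1 MvPolynomial.X : Fin (n + 1) → MvPolynomial (Fin n) ℂ) P) =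
        MvPolynomial.eval (fun i => MvPolynomial.eval y
          ((Fin.cons 1 MvPolynomial.X : Fin (n + 1) → MvPolynomial (Fin n) ℂ) i)) P :=
      MvPolynomial.aeval_bind₁ (f := y)
        (g := (Fin.cons 1 MvPolynomial.X : Fin (n + 1) → MvPolynomial (Fin n) ℂ)) P
    have e : (fun i => MvPolynomial.eval y
        ((Fin.cons 1 MvPolynomial.X : Fin (n + 1) → MvPolynomial (Fin n) ℂ) i)) =
        (Fin.cons 1 y : Fin (n + 1) → ℂ) := by
      funext i
      refine Fin.cases ?_ (fun j => ?_) i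
      · simp
      · simp
    rw [e] at h1
    exact h1
  obtain ⟨r, hr, hball⟩ := Metric.eventually_nhds_iff_ball.1 h
  have hp0 : p = 0 := by
    refine MvPolynomial.funext_set (fun i => ball (y0 i) r) (fun i => ?_) fun y hy => ?_
    · exact (infinite_of_mem_nhds (y0 i) (ball_mem_nhds (y0 i) hr))
    · rw [hp, map_zero]
      refine hball y ?_
      rw [mem_ball, dist_pi_lt_iff hr]
      intro i
      exact mem_ball.1 (hy i (Set.mem_univ i))
  -- P vanishes wherever the first coordinate is not zero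
  have h1 : ∀ x : Fin (n + 1) → ℂ, x 0 ≠ 0 → MvPolynomial.eval x P = 0 := by
    intro x hx
    have h2 : x = fun i => x 0 * (Fin.cons 1 (fun j : Fin n => x j.succ / x 0) : Fin (n + 1) → ℂ) i := by
      funext i
      refine Fin.cases ?_ (fun j => ?_) i
      · simp
      · simp only [Fin.cons_succ]
        field_simp
    rw [h2, eval_scale hP, ← hp, hp0, map_zero, mul_zero]
  have h3 : P * MvPolynomial.X 0 = 0 := by
    refine MvPolynomial.funext fun x => ?_
    rw [map_mul, MvPolynomial.eval_X, map_zero]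
    by_cases hx : x 0 = 0
    · rw [hx, mul_zero]
    · rw [h1 x hx, zero_mul]
  rcases mul_eq_zero.1 h3 with h4 | h4
  · exact h4
  · exact absurd h4 (MvPolynomial.X_ne_zero 0)

end JacM

open JacM in
theorem specJAC : SpecJAC := by
  intro n X g z0 hX hz0 hg hg0 hker P d hP hP0
  by_contra hcon
  push Not at hcon
  apply hP0
  -- the map
  set G : (Fin n → ℂ) → (Fin n → ℂ) := fun z i => g i.succ z / g 0 z with hG
  have hGa : ∀ i : Fin n, AnalyticAt ℂ (fun z => g i.succ z / g 0 z) z0 := fun i =>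
    (hg i.succ z0 hz0).div (hg 0 z0 hz0) hg0
  let D : (Fin n → ℂ) →L[ℂ] (Fin n → ℂ) :=
    ContinuousLinearMap.pi fun i : Fin n => fderiv ℂ (fun z => g i.succ z / g 0 z) z0
  have hGd : HasStrictFDerivAt G D z0 := by
    refine hasStrictFDerivAt_pi.2 fun i => ?_
    exact (hGa i).hasStrictFDerivAt
  have hprod : ∀ (i : Fin n) (v : Fin n → ℂ), fderiv ℂ (g i.succ) z0 v =
      g i.succ z0 / g 0 z0 * fderiv ℂ (g 0) z0 v +
        g 0 z0 * fderiv ℂ (fun z => g i.succ z / g 0 z) z0 v := by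
    intro i v
    have h1 : HasFDerivAt (fun z => (g i.succ z / g 0 z) * g 0 z)
        ((g i.succ z0 / g 0 z0) • fderiv ℂ (g 0) z0 +
          g 0 z0 • fderiv ℂ (fun z => g i.succ z / g 0 z) z0) z0 :=
      ((hGa i).differentiableAt.hasFDerivAt).mul (hg 0 z0 hz0).differentiableAt.hasFDerivAt
    have hev : ∀ᶠ z in 𝓝 z0, g 0 z ≠ 0 :=
      (hg 0 z0 hz0).continuousAt.eventually_ne hg0
    have h2 : (fun z => (g i.succ z / g 0 z) * g 0 z) =ᶠ[𝓝 z0] g i.succ := by
      filter_upwards [hev] with z hz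
      field_simp
    have h3 := (h1.congr_of_eventuallyEq h2.symm).fderiv
    rw [h3]
    simp
  have hinj : Function.Injective D := by
    rw [injective_iff_map_eq_zero]
    intro v hv
    refine hker v fun i => ?_
    refine Fin.cases rfl (fun j => ?_) i
    have h1 : fderiv ℂ (fun z => g j.succ z / g 0 z) z0 v = 0 := congrFun hv j
    rw [hprod j v, h1]
    field_simp
    ring
  let e : (Fin n → ℂ) ≃L[ℂ] (Fin n → ℂ) :=
    (LinearEquiv.ofInjectiveEndo D.toLinearMap hinj).toContinuousLinearEquiv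
  have he : (e : (Fin n → ℂ) →L[ℂ] (Fin n → ℂ)) = D := by
    ext v
    rfl
  have hGe : HasStrictFDerivAt G (e : (Fin n → ℂ) →L[ℂ] (Fin n → ℂ)) z0 := by
    rw [he]
    exact hGd
  have hmap := hGe.map_nhds_eq_of_equiv
  refine zero_of_open hP (G z0) ?_
  rw [← hmap, eventually_map]
  have hev : ∀ᶠ z in 𝓝 z0, g 0 z ≠ 0 :=
    (hg 0 z0 hz0).continuousAt.eventually_ne hg0
  filter_upwards [hev, hX.mem_nhds hz0] with z hz hzX
  have h1 := hcon z hzX
  have h2 : (fun i => g i z) = fun i => g 0 z * (Fin.cons 1 (G z) : Fin (n + 1) → ℂ) i := by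
    funext i
    refine Fin.cases ?_ (fun j => ?_) i
    · simp
    · simp only [Fin.cons_succ, hG]
      field_simp
  rw [h2, eval_scale hP] at h1
  exact (mul_eq_zero.1 h1).resolve_left (pow_ne_zero d hz)

end Pool.Agent.Lib.MPf11a48.SH.D
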