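import Pool.Agent.Lib.MP_f11a48_ag.SH.D.Defs

/-! # part (d), module LINQ -/

set_option autoImplicit false

namespace Pool.Agent.Lib.MPf11a48.SH.D

theorem specLINQ : SpecLINQ := by
  intro J _ V α x halg hx hrel huniq i j
  classical
  -- the field of algebraic numbers
  let Q : IntermediateField ℚ ℂ := algebraicClosure ℚ ℂ
  have hQ : ∀ z : ℂ, z ∈ Q ↔ IsAlgebraic ℚ z := fun z => mem_algebraicClosure_iff
  -- a Q-linear projection of ℂ onto Q
  obtain ⟨π, hπ⟩ : ∃ π : ℂ →ₗ[Q] Q, ∀ z : Q, π (z : ℂ) = z := by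
    have hinj : LinearMap.ker (Algebra.linearMap Q ℂ) = ⊥ :=
      LinearMap.ker_eq_bot.2 (algebraMap Q ℂ).injective
    obtain ⟨π, hπ⟩ := LinearMap.exists_leftInverse_of_injective (Algebra.linearMap Q ℂ) hinj
    refine ⟨π, fun z => ?_⟩
    have := LinearMap.congr_fun hπ z
    simpa using this
  -- the projected solution, normalised at j
  let y : J → ℂ := fun l => (π (x l / x j) : ℂ)
  have hy : ∀ v, ∑ l, y l * α l v = 0 := by
    intro v
    have h1 : ∑ l, (x l / x j) * α l v = 0 := by
      have h2 : ∑ l, (x l / x j) * α l v = (∑ l, x l * α l v) / x j := by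
        rw [Finset.sum_div]
        exact Finset.sum_congr rfl fun l _ => by ring
      rw [h2, hrel v, zero_div]
    have h3 : π (∑ l, (x l / x j) * α l v) = ∑ l, (⟨α l v, (hQ _).2 (halg l v)⟩ : Q) *
        π (x l / x j) := by
      rw [map_sum]
      refine Finset.sum_congr rfl fun l _ => ?_
      have h4 : (x l / x j) * α l v = (⟨α l v, (hQ _).2 (halg l v)⟩ : Q) • (x l / x j) := by
        rw [Algebra.smul_def]
        show _ = α l v * (x l / x j)
        ring
      rw [h4, map_smul, smul_eq_mul]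
    rw [h1, map_zero] at h3
    have h5 := congrArg (fun z : Q => (z : ℂ)) h3.symm
    simp only [ZeroMemClass.coe_zero] at h5
    rw [← h5]
    push_cast
    refine Finset.sum_congr rfl fun l _ => ?_
    show (π (x l / x j) : ℂ) * α l v = α l v * (π (x l / x j) : ℂ)
    ring
  obtain ⟨μ, hμ⟩ := huniq y hy
  have hyj : y j = 1 := by
    show ((π (x j / x j) : Q) : ℂ) = 1
    rw [div_self (hx j)]
    have := hπ 1
    rw [show ((1 : Q) : ℂ) = 1 from rfl] at this
    rw [this]
    rfl
  have hμ1 : μ = 1 / x j := by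
    have h1 := hμ j
    rw [hyj] at h1
    rw [eq_div_iff (hx j)]
    exact h1.symm
  have h2 : x i / x j = y i := by
    rw [hμ i, hμ1]
    ring
  rw [h2, ← hQ]
  exact (π (x i / x j)).2

end Pool.Agent.Lib.MPf11a48.SH.D
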