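import Pool.Agent.Lib.MP_f11a48_ag.SH.D.Defs

/-! # part (d), module REL -/

set_option autoImplicit false

open Filter Topology Metric

namespace Pool.Agent.Lib.MPf11a48.SH.D

namespace RelM

/-- the value of a homogeneous monomial at the image of a point -/
theorem prod_act {m : ℕ} (a b : Fin m → ℂ) (x : ℂ) (h : ∀ i, b i = x * a i) (e : Fin m → ℕ) :
    ∏ i, b i ^ e i = x ^ (∑ i, e i) * ∏ i, a i ^ e i := by
  rw [← Finset.prod_pow_eq_pow_sum, ← Finset.prod_mul_distrib]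
  refine Finset.prod_congr rfl fun i _ => ?_
  rw [h i, mul_pow]

theorem dom_of_form {n : ℕ} (S : Setup n) {m : ℕ} (u : Fin m → (Fin n → ℂ) → ℂ)
    (hu : ∀ i, S.Form (u i)) (k : ℕ) {ι : Type} [Fintype ι] (e : ι → Fin m → ℕ)
    (he : ∀ β, ∑ i, e β i = k) (c : ι → ℂ) :
    Dom S.X S.K S.φ k (fun z => ∑ β, c β * ∏ i, u i z ^ e β i) := by
  intro z hz
  obtain ⟨γ, hγ⟩ := S.cocompact z hz
  refine ⟨S.act γ z, hγ, le_of_eq ?_⟩
  have h1 : ∑ β, c β * ∏ i, u i (S.act γ z) ^ e β i =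
      S.fac γ z ^ k * ∑ β, c β * ∏ i, u i z ^ e β i := by
    rw [Finset.mul_sum]
    refine Finset.sum_congr rfl fun β _ => ?_
    rw [prod_act (fun i => u i z) (fun i => u i (S.act γ z)) (S.fac γ z)
      (fun i => (hu i).2 γ z hz hγ) (e β), he β]
    ring
  simp only [h1, norm_mul, norm_pow]
  rw [← S.inv_φ γ z hz hγ, mul_pow]
  ring

/-- the exponents -/
noncomputable def ex {n q : ℕ} (β : Fin (n + 1) → Fin (q + 1)) : Fin (n + 2) →₀ ℕ :=
  Finsupp.equivFunOnFinite.symm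
    (Fin.cons ((n + 1) * q - ∑ i, (β i : ℕ)) fun i => (β i : ℕ))

theorem ex_zero {n q : ℕ} (β : Fin (n + 1) → Fin (q + 1)) :
    ex β 0 = (n + 1) * q - ∑ i, (β i : ℕ) := by
  simp [ex]

theorem ex_succ {n q : ℕ} (β : Fin (n + 1) → Fin (q + 1)) (i : Fin (n + 1)) :
    ex β i.succ = (β i : ℕ) := by
  simp [ex]

theorem ex_inj {n q : ℕ} : Function.Injective (ex (n := n) (q := q)) := by
  intro β γ h
  funext i
  have := DFunLike.congr_fun h i.succ
  rw [ex_succ, ex_succ] at this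
  exact Fin.ext this

theorem sum_ex {n q : ℕ} (β : Fin (n + 1) → Fin (q + 1)) : ∑ i, ex β i = (n + 1) * q := by
  rw [Fin.sum_univ_succ, ex_zero]
  simp only [ex_succ]
  have h : ∑ i, (β i : ℕ) ≤ (n + 1) * q := by
    calc ∑ i, (β i : ℕ) ≤ ∑ _i : Fin (n + 1), q :=
        Finset.sum_le_sum fun i _ => Nat.lt_succ_iff.1 (β i).2
      _ = (n + 1) * q := by simp
  omega

end RelM

open RelM in
theorem specREL (hCOUNT : SpecCOUNT) : SpecREL := by
  intro n S u hu
  classical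
  obtain ⟨C, hC⟩ := hCOUNT n S.X S.K S.φ S.open_X S.compact_K S.K_sub S.cont_φ S.pos_φ
  set q := C * (n + 1) ^ n + 1 with hq
  have hq1 : 1 ≤ q := by omega
  have hcard : C * ((n + 1) * q) ^ n < Fintype.card (Fin (n + 1) → Fin (q + 1)) := by
    rw [Fintype.card_fun, Fintype.card_fin, Fintype.card_fin, mul_pow]
    calc C * ((n + 1) ^ n * q ^ n) = C * (n + 1) ^ n * q ^ n := by ring
      _ < q * q ^ n := by
          refine Nat.mul_lt_mul_of_pos_right ?_ (pow_pos hq1 n)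
          omega
      _ = q ^ (n + 1) := by ring
      _ ≤ (q + 1) ^ (n + 1) := Nat.pow_le_pow_left (Nat.le_succ q) _
  have hana : ∀ β : Fin (n + 1) → Fin (q + 1),
      AnalyticOnNhd ℂ (fun z => ∏ i, u i z ^ ex β i) S.X := by
    intro β
    have h : AnalyticOnNhd ℂ (∏ i, fun z => u i z ^ ex β i) S.X :=
      Finset.analyticOnNhd_prod _ fun i _ => (hu i).1.pow _
    have e : (fun z => ∏ i, u i z ^ ex β i) = ∏ i, fun z => u i z ^ ex β i := by
      funext z
      simp [Finset.prod_apply]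
    rw [e]
    exact h
  have hdom : ∀ c : (Fin (n + 1) → Fin (q + 1)) → ℂ,
      Dom S.X S.K S.φ ((n + 1) * q) (fun z => ∑ β, c β * ∏ i, u i z ^ ex β i) := fun c =>
    dom_of_form S u hu ((n + 1) * q) (fun β i => ex β i) (fun β => sum_ex β) c
  obtain ⟨c, hc0, hc⟩ := hC ((n + 1) * q) (Nat.mul_pos (Nat.succ_pos n) hq1)
    (Fin (n + 1) → Fin (q + 1)) (fun β z => ∏ i, u i z ^ ex β i) hcard hana hdom
  refine ⟨(n + 1) * q, ∑ β, MvPolynomial.monomial (ex β) (c β), ?_, ?_, ?_⟩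
  · refine MvPolynomial.IsHomogeneous.sum _ _ _ fun β _ => ?_
    refine MvPolynomial.isHomogeneous_monomial _ ?_
    rw [Finsupp.degree_eq_sum, sum_ex]
  · intro h
    apply hc0
    funext β
    have h1 := congrArg (MvPolynomial.coeff (ex β)) h
    rw [MvPolynomial.coeff_sum, MvPolynomial.coeff_zero] at h1
    rw [Finset.sum_eq_single β] at h1
    · simpa using h1
    · intro γ _ hγ
      rw [MvPolynomial.coeff_monomial, if_neg]
      exact fun h2 => hγ (ex_inj h2)
    · intro h2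
      exact absurd (Finset.mem_univ _) h2
  · intro z hz
    rw [map_sum]
    have h1 := hc z hz
    rw [← h1]
    refine Finset.sum_congr rfl fun β _ => ?_
    rw [MvPolynomial.eval_monomial, Finsupp.prod_fintype _ _ (fun i => pow_zero _)]

end Pool.Agent.Lib.MPf11a48.SH.D
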