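import Pool.Agent.Lib.MP_f11a48_ag.SH.D.Min
import Pool.Agent.Lib.MP_f11a48_ag.SH.D.Rel

/-! # part (d), module MIN: the main theorem -/

set_option autoImplicit false

open Filter Topology Metric

namespace Pool.Agent.Lib.MPf11a48.SH.D

namespace MinM

/-- monomial value -/
noncomputable def mon {n m : ℕ} (u : Fin m → (Fin n → ℂ) → ℂ) (e : Fin m →₀ ℕ)
    (z : Fin n → ℂ) : ℂ := ∏ i, u i z ^ e i

theorem mon_analytic {n m : ℕ} {X : Set (Fin n → ℂ)} {u : Fin m → (Fin n → ℂ) → ℂ}
    (hu : ∀ i, AnalyticOnNhd ℂ (u i) X) (e : Fin m →₀ ℕ) : AnalyticOnNhd ℂ (mon u e) X := by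
  have h : AnalyticOnNhd ℂ (∏ i, fun z => u i z ^ e i) X :=
    Finset.analyticOnNhd_prod _ fun i _ => (hu i).pow _
  have e1 : mon u e = ∏ i, fun z => u i z ^ e i := by
    funext z
    simp [mon, Finset.prod_apply]
  rw [e1]
  exact h

theorem eval_eq_mon {n m : ℕ} (u : Fin m → (Fin n → ℂ) → ℂ) (P : MvPolynomial (Fin m) ℂ)
    (z : Fin n → ℂ) :
    MvPolynomial.eval (fun i => u i z) P = ∑ e : P.support, P.coeff e.1 * mon u e.1 z := by
  rw [MvPolynomial.eval_eq']
  exact (Finset.sum_coe_sort P.support fun e => P.coeff e * mon u e z).symm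

theorem mon_succ {n m : ℕ} (u : Fin (m + 1) → (Fin n → ℂ) → ℂ) (e : Fin (m + 1) →₀ ℕ)
    (z : Fin n → ℂ) : mon u e z = u 0 z ^ e 0 * ∏ i : Fin m, u i.succ z ^ e i.succ := by
  rw [mon, Fin.prod_univ_succ]

theorem sum_sub {J : Type} [Fintype J] (b F : J → ℂ) (hF : ∀ e, b e = 0 → F e = 0) :
    ∑ e : {e : J // b e ≠ 0}, F e.1 = ∑ e : J, F e := by
  classical
  rw [← Finset.sum_subtype (Finset.univ.filter fun e => b e ≠ 0) (by simp) F]
  refine Finset.sum_subset (Finset.subset_univ _) fun e _ he => ?_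
  refine hF e ?_
  by_contra h
  exact he (by simp [h])

theorem prod_alg {J : Type} [Fintype J] (f : J → ℂ) (hf : ∀ j, IsAlgebraic ℚ (f j)) :
    IsAlgebraic ℚ (∏ j, f j) := by
  classical
  have h : ∀ s : Finset J, IsAlgebraic ℚ (∏ j ∈ s, f j) := by
    intro s
    induction s using Finset.induction_on with
    | empty => rw [Finset.prod_empty]; exact isAlgebraic_one
    | insert i s hi ih => rw [Finset.prod_insert hi]; exact (hf i).mul ih
  exact h Finset.univ

/-- a continuous function which vanishes on a dense subset vanishes -/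
theorem zero_of_dense {n : ℕ} {X : Set (Fin n → ℂ)} {f : (Fin n → ℂ) → ℂ}
    (hf : ContinuousOn f X) {P : Set (Fin n → ℂ)} (hPX : P ⊆ X) (hP : X ⊆ closure P)
    (h0 : ∀ z ∈ P, f z = 0) : ∀ z ∈ X, f z = 0 := by
  intro z hz
  have h1 : Tendsto f (𝓝[P] z) (𝓝 (f z)) := ((hf z hz).mono hPX)
  have h2 : (𝓝[P] z).NeBot := mem_closure_iff_nhdsWithin_neBot.1 (hP hz)
  have h3 : Tendsto f (𝓝[P] z) (𝓝 0) := by
    refine tendsto_const_nhds.congr' ?_
    filter_upwards [self_mem_nhdsWithin] with w hw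
    exact (h0 w hw).symm
  exact tendsto_nhds_unique h1 h3

end MinM

open MinM in
theorem specMIN (hREL : SpecREL) (hLINQ : SpecLINQ) : SpecMIN := by
  intro n S h g hh hg hh0 hind Pt d hPX hPd hd0 hval
  classical
  set u : Fin (n + 2) → (Fin n → ℂ) → ℂ := Fin.cons h g with hu
  have hu0 : u 0 = h := rfl
  have hus : ∀ i : Fin (n + 1), u i.succ = g i := fun i => rfl
  have huF : ∀ i, S.Form (u i) := by
    intro i
    refine Fin.cases ?_ (fun j => ?_) i
    · rw [hu0]; exact hh
    · rw [hus]; exact hg j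
  obtain ⟨k, P, hPk, hP0, hPX0⟩ := hREL n S u huF
  -- the minimal relation
  let J := P.support
  let m : J → (Fin n → ℂ) → ℂ := fun e => mon u e.1
  have hsum : ∀ e : J, ∑ i, e.1 i = k := by
    intro e
    by_contra hne
    refine MvPolynomial.mem_support_iff.1 e.2 (hPk.coeff_eq_zero ?_)
    rwa [Finsupp.degree_eq_sum]
  obtain ⟨b, hb0, hbrel, hbmin⟩ := exists_min S.X m (fun e => P.coeff e.1) (by
      intro hc
      obtain ⟨e, he⟩ := (MvPolynomial.support_nonempty.2 hP0 : P.support.Nonempty)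
      exact MvPolynomial.mem_support_iff.1 he (congrFun hc ⟨e, he⟩)) (by
      intro z hz
      rw [← eval_eq_mon u P z]
      exact hPX0 z hz)
  -- two different exponents of `h`
  obtain ⟨i, j, hi, hj, hij⟩ : ∃ i j : J, b i ≠ 0 ∧ b j ≠ 0 ∧ j.1 0 < i.1 0 := by
    by_contra hcon
    push Not at hcon
    obtain ⟨i0, hi0⟩ : ∃ i, b i ≠ 0 := by
      by_contra hx
      push Not at hx
      exact hb0 (funext hx)
    set a := i0.1 0 with ha
    have hall : ∀ e : J, b e ≠ 0 → e.1 0 = a := fun e he =>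
      le_antisymm (hcon e i0 he hi0) (hcon i0 e hi0 he)
    -- the polynomial in `g`
    let tl : (Fin (n + 2) →₀ ℕ) → (Fin (n + 1) →₀ ℕ) := fun e =>
      Finsupp.equivFunOnFinite.symm fun i => e i.succ
    have htl : ∀ e i, tl e i = e i.succ := fun e i => rfl
    let Q : MvPolynomial (Fin (n + 1)) ℂ := ∑ e : J, MvPolynomial.monomial (tl e.1) (b e)
    have hQhom : Q.IsHomogeneous (k - a) := by
      refine MvPolynomial.IsHomogeneous.sum _ _ _ fun e _ => ?_
      by_cases hbe : b e = 0
      · rw [hbe, map_zero]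
        exact MvPolynomial.isHomogeneous_zero _ _ _
      · refine MvPolynomial.isHomogeneous_monomial _ ?_
        rw [Finsupp.degree_eq_sum]
        have h1 := hsum e
        rw [Fin.sum_univ_succ, hall e hbe] at h1
        simp only [htl]
        omega
    have hQ0 : Q ≠ 0 := by
      intro hQ
      have h1 := congrArg (MvPolynomial.coeff (tl i0.1)) hQ
      rw [MvPolynomial.coeff_sum, MvPolynomial.coeff_zero, Finset.sum_eq_single i0] at h1
      · rw [MvPolynomial.coeff_monomial, if_pos rfl] at h1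
        exact hi0 h1
      · intro e _ he
        rw [MvPolynomial.coeff_monomial]
        by_cases hbe : b e = 0
        · rw [hbe, ite_self]
        · rw [if_neg]
          intro h2
          apply he
          apply Subtype.ext
          ext l
          refine Fin.cases ?_ (fun l' => ?_) l
          · rw [hall e hbe, ha]
          · have := DFunLike.congr_fun h2 l'
            rwa [htl, htl] at this
      · intro h2
        exact absurd (Finset.mem_univ _) h2
    -- the value
    have hfac : ∀ z ∈ S.X, h z ^ a * MvPolynomial.eval (fun i => g i z) Q = 0 := by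
      intro z hz
      have h1 := hbrel z hz
      rw [← h1, map_sum, Finset.mul_sum]
      refine Finset.sum_congr rfl fun e _ => ?_
      rw [MvPolynomial.eval_monomial, Finsupp.prod_fintype _ _ (fun i => pow_zero _)]
      by_cases hbe : b e = 0
      · rw [hbe]; ring
      · show _ = b e * mon u e.1 z
        rw [mon_succ, hall e hbe]
        simp only [hu0, hus, htl]
        ring
    have hQana : AnalyticOnNhd ℂ (fun z => MvPolynomial.eval (fun i => g i z) Q) S.X := by
      have h1 : (fun z => MvPolynomial.eval (fun i => g i z) Q) =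
          ∑ e : Q.support, fun z => Q.coeff e.1 * mon g e.1 z := by
        funext z
        rw [eval_eq_mon g Q z, Finset.sum_apply]
      rw [h1]
      exact Finset.analyticOnNhd_sum _ fun e _ =>
        analyticOnNhd_const.mul (mon_analytic (fun i => (hg i).1) e.1)
    obtain ⟨z1, hz1, hz1'⟩ := hh0
    have hev : (fun z => MvPolynomial.eval (fun i => g i z) Q) =ᶠ[𝓝 z1] 0 := by
      have h1 : ∀ᶠ z in 𝓝 z1, h z ≠ 0 := (hh.1 z1 hz1).continuousAt.eventually_ne hz1'
      filter_upwards [h1, S.open_X.mem_nhds hz1] with z hz hzX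
      exact (mul_eq_zero.1 (hfac z hzX)).resolve_left (pow_ne_zero a hz)
    have hzero := hQana.eqOn_zero_of_preconnected_of_eventuallyEq_zero S.conn_X hz1 hev
    obtain ⟨z2, hz2, hz2'⟩ := hind Q (k - a) hQhom hQ0
    exact hz2' (hzero hz2)
  -- the probes
  have hprobe : ∀ ν, IsAlgebraic ℚ (b i * d ν ^ (i.1 0) / (b j * d ν ^ (j.1 0))) := by
    intro ν
    have hρ : ∀ z : Pt ν, ∃ ρ : ℂ, ρ ≠ 0 ∧ (∀ i, IsAlgebraic ℚ (g i z.1 / ρ)) ∧
        IsAlgebraic ℚ (h z.1 / (d ν * ρ)) := fun z => hval ν z.1 z.2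
    choose ρ hρ0 hρg hρh using hρ
    let α : J → Pt ν → ℂ := fun e z => mon u e.1 z.1 / (d ν ^ (e.1 0) * ρ z ^ k)
    have hα : ∀ e z, IsAlgebraic ℚ (α e z) := by
      intro e z
      have h1 : α e z = (h z.1 / (d ν * ρ z)) ^ (e.1 0) *
          ∏ i : Fin (n + 1), (g i z.1 / ρ z) ^ (e.1 i.succ) := by
        have h2 : ρ z ^ k = ρ z ^ (e.1 0) * ∏ i : Fin (n + 1), ρ z ^ (e.1 i.succ) := by
          rw [Finset.prod_pow_eq_pow_sum, ← pow_add]
          congr 1
          rw [← hsum e, Fin.sum_univ_succ]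
        simp only [α]
        rw [mon_succ, h2]
        simp only [hu0, hus, div_pow, Finset.prod_div_distrib, mul_pow]
        have h3 : ∏ i : Fin (n + 1), ρ z ^ (e.1 i.succ) ≠ 0 :=
          Finset.prod_ne_zero_iff.2 fun i _ => pow_ne_zero _ (hρ0 z)
        have h4 := pow_ne_zero (e.1 0) (hρ0 z)
        have h5 := pow_ne_zero (e.1 0) (hd0 ν)
        field_simp
      rw [h1]
      refine ((hρh z).pow _).mul ?_
      exact prod_alg _ fun i => (hρg z i).pow _
    have hvan : ∀ (y : J → ℂ) (z : Pt ν), ∑ e, y e * α e z =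
        (∑ e : J, (y e / d ν ^ (e.1 0)) * mon u e.1 z.1) / ρ z ^ k := by
      intro y z
      rw [Finset.sum_div]
      refine Finset.sum_congr rfl fun e _ => ?_
      simp only [α]
      have h4 := pow_ne_zero k (hρ0 z)
      have h5 := pow_ne_zero (e.1 0) (hd0 ν)
      field_simp
    have hres := hLINQ {e : J // b e ≠ 0} (Pt ν) (fun e z => α e.1 z)
      (fun e => b e.1 * d ν ^ (e.1.1 0)) (fun e z => hα e.1 z)
      (fun e => mul_ne_zero e.2 (pow_ne_zero _ (hd0 ν))) (by
        intro z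
        rw [sum_sub b (fun e => b e * d ν ^ (e.1 0) * α e z) (fun e he => by rw [he]; ring)]
        rw [hvan (fun e => b e * d ν ^ (e.1 0)) z]
        have h1 : ∑ e : J, (b e * d ν ^ (e.1 0) / d ν ^ (e.1 0)) * mon u e.1 z.1 = 0 := by
          rw [← hbrel z.1 (hPX ν z.2)]
          refine Finset.sum_congr rfl fun e _ => ?_
          have h5 := pow_ne_zero (e.1 0) (hd0 ν)
          rw [mul_div_assoc, div_self h5, mul_one]
        rw [h1, zero_div]) (by
        intro y hy
        let y' : J → ℂ := fun e => if he : b e ≠ 0 then y ⟨e, he⟩ else 0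
        have hy' : ∀ e : {e : J // b e ≠ 0}, y' e.1 = y e := fun e => dif_pos e.2
        have hy0 : ∀ e, b e = 0 → y' e = 0 := fun e he => dif_neg (not_not.2 he)
        have hrel : MinM.Rel S.X m (fun e => y' e / d ν ^ (e.1 0)) := by
          have hcont : ContinuousOn (fun z => ∑ e : J, (y' e / d ν ^ (e.1 0)) * mon u e.1 z)
              S.X := by
            refine continuousOn_finsetSum _ fun e _ => ?_
            exact continuousOn_const.mul (mon_analytic (fun i => (huF i).1) e.1).continuousOn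
          refine zero_of_dense hcont (hPX ν) (hPd ν) fun z hz => ?_
          have h1 := hy ⟨z, hz⟩
          have h2 : ∑ e : {e : J // b e ≠ 0}, y e * α e.1 ⟨z, hz⟩ =
              ∑ e : J, y' e * α e ⟨z, hz⟩ := by
            rw [← sum_sub b (fun e => y' e * α e ⟨z, hz⟩) (fun e he => by rw [hy0 e he, zero_mul])]
            exact Finset.sum_congr rfl fun e _ => by rw [hy' e]
          rw [h2, hvan y' ⟨z, hz⟩] at h1
          exact (div_eq_zero_iff.1 h1).resolve_right (pow_ne_zero k (hρ0 _))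
        obtain ⟨μ, hμ⟩ := hbmin _ hrel (fun e he => by rw [hy0 e he, zero_div])
        refine ⟨μ, fun e => ?_⟩
        have h1 := hμ e.1
        simp only [hy'] at h1
        have h5 := pow_ne_zero (e.1.1 0) (hd0 ν)
        rw [div_eq_iff h5] at h1
        rw [h1]
        ring)
    exact hres ⟨i, hi⟩ ⟨j, hj⟩
  -- the conclusion
  have h0 := hprobe 0
  have h1 := hprobe 1
  have h2 : (d 0 / d 1) ^ (i.1 0 - j.1 0) =
      (b i * d 0 ^ (i.1 0) / (b j * d 0 ^ (j.1 0))) /
        (b i * d 1 ^ (i.1 0) / (b j * d 1 ^ (j.1 0))) := by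
    obtain ⟨r, hr⟩ : ∃ r, i.1 0 = j.1 0 + r := ⟨i.1 0 - j.1 0, by omega⟩
    have h3 : i.1 0 - j.1 0 = r := by omega
    rw [h3, hr, pow_add, pow_add, div_pow]
    have e0 := pow_ne_zero (j.1 0) (hd0 0)
    have e1 := pow_ne_zero (j.1 0) (hd0 1)
    have e2 := pow_ne_zero r (hd0 0)
    have e3 := pow_ne_zero r (hd0 1)
    field_simp
  have h3 : IsAlgebraic ℚ ((d 0 / d 1) ^ (i.1 0 - j.1 0)) := by
    rw [h2, div_eq_mul_inv]
    exact h0.mul (IsAlgebraic.inv_iff.2 h1)
  exact IsAlgebraic.of_pow (by omega) h3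

end Pool.Agent.Lib.MPf11a48.SH.D
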