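import Pool.Agent.Lib.MP_f11a48_ag.SH.D.Defs

/-! # part (d), module SEL -/

set_option autoImplicit false

namespace Pool.Agent.Lib.MPf11a48.SH.D

theorem specSEL : SpecSEL := by
  intro n A g0 z0 hg0 hker
  classical
  -- the functionals
  let ℓ : ((Fin n → ℂ) → ℂ) → Module.Dual ℂ (Fin n → ℂ) := fun g =>
    (g0 z0 • fderiv ℂ g z0 - g z0 • fderiv ℂ g0 z0).toLinearMap
  have hℓ : ∀ g v, ℓ g v = g0 z0 * fderiv ℂ g z0 v - g z0 * fderiv ℂ g0 z0 v := fun g v => rfl
  have hspan : Submodule.span ℂ (ℓ '' A) = ⊤ := by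
    have h1 : (Submodule.span ℂ (ℓ '' A)).dualCoannihilator = ⊥ := by
      rw [eq_bot_iff]
      intro v hv
      rw [Submodule.mem_bot]
      refine hker v fun g hg => ?_
      rw [Submodule.mem_dualCoannihilator] at hv
      have h1 := hv (ℓ g) (Submodule.subset_span ⟨g, hg, rfl⟩)
      rw [hℓ] at h1
      exact sub_eq_zero.1 h1
    have h2 := Subspace.dualCoannihilator_dualAnnihilator_eq (W := Submodule.span ℂ (ℓ '' A))
    rw [← h2, h1, Submodule.dualAnnihilator_bot]
  obtain ⟨b, hbA, hbspan, hbli⟩ := exists_linearIndependent ℂ (ℓ '' A)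
  rw [hspan] at hbspan
  let B : Module.Basis b ℂ (Module.Dual ℂ (Fin n → ℂ)) := Module.Basis.mk hbli (by
    rw [Subtype.range_coe, hbspan])
  have hfinb : Finite b := Module.Finite.finite_basis B
  have : Fintype b := Fintype.ofFinite b
  have hcard : Fintype.card b = n := by
    have h1 := Module.finrank_eq_card_basis B
    rw [← h1, Subspace.dual_finrank_eq, Module.finrank_fin_fun]
  let eq : Fin n ≃ b := (Fintype.equivFinOfCardEq hcard).symm
  choose f hf using fun x : b => hbA x.2
  refine ⟨Fin.cons g0 fun i => f (eq i), rfl, fun i => Or.inl ?_, fun v hv => ?_⟩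
  · rw [Fin.cons_succ]
    exact (hf (eq i)).1
  · -- v is killed by a basis of the dual
    have h1 : ∀ x : b, (x : Module.Dual ℂ (Fin n → ℂ)) v = 0 := by
      intro x
      have h2 := hv (eq.symm x).succ
      simp only [Fin.cons_succ, Fin.cons_zero, Equiv.apply_symm_apply] at h2
      rw [← (hf x).2, hℓ, h2, sub_self]
    have h3 : ∀ φ : Module.Dual ℂ (Fin n → ℂ), φ v = 0 := by
      intro φ
      have h4 : φ ∈ Submodule.span ℂ b := by
        rw [hbspan]
        exact Submodule.mem_top
      refine Submodule.span_induction (p := fun φ _ => φ v = 0) ?_ ?_ ?_ ?_ h4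
      · intro x hx
        exact h1 ⟨x, hx⟩
      · rfl
      · intro x y _ _ hx hy
        rw [LinearMap.add_apply, hx, hy, add_zero]
      · intro a x _ hx
        rw [LinearMap.smul_apply, hx, smul_zero]
    exact (Module.forall_dual_apply_eq_zero_iff ℂ v).1 h3

end Pool.Agent.Lib.MPf11a48.SH.D
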