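import Pool.Agent.Lib.MP_f11a48_ag.SH.D.Count
import Pool.Agent.Lib.MP_f11a48_ag.SH.D.Rel
import Pool.Agent.Lib.MP_f11a48_ag.SH.D.Linq
import Pool.Agent.Lib.MP_f11a48_ag.SH.D.Jac
import Pool.Agent.Lib.MP_f11a48_ag.SH.D.Sel
import Pool.Agent.Lib.MP_f11a48_ag.SH.D.MinMain

/-! # part (d), assembly -/

set_option autoImplicit false

open Filter Topology Metric

namespace Pool.Agent.Lib.MPf11a48.SH.D

theorem rel_all : SpecREL := specREL specCOUNT

theorem min_all : SpecMIN := specMIN rel_all specLINQ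

theorem fin_all : SpecFIN := by
  intro n S h g0 A z0 hh hg0 hA hh0 hz0 hg00 hker P d hPX hPd hd0 hval
  obtain ⟨g, hgg0, hgA, hgker⟩ := specSEL n A g0 z0 hg00 hker
  have hgF : ∀ i, S.Form (g i) := by
    intro i
    refine Fin.cases ?_ (fun j => ?_) i
    · rw [hgg0]; exact hg0
    · rcases hgA j with h1 | h1
      · exact hA _ h1
      · rw [h1]; exact hg0
  have hind := specJAC n S.X g z0 S.open_X hz0 (fun i => (hgF i).1) (by rw [hgg0]; exact hg00)
    hgker
  refine min_all n S h g hh hgF hh0 hind P d hPX hPd hd0 fun ν z hz => ?_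
  obtain ⟨ρ, hρ, hρ0, hρA, hρh⟩ := hval ν z hz
  refine ⟨ρ, hρ, fun i => ?_, hρh⟩
  refine Fin.cases ?_ (fun j => ?_) i
  · rw [hgg0]; exact hρ0
  · rcases hgA j with h1 | h1
    · exact hρA _ h1
    · rw [h1]; exact hρ0

end Pool.Agent.Lib.MPf11a48.SH.D
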