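import Pool.Agent.Lib.MP_f11a48_ag.SH.D.Defs

/-! # part (d), module MIN -/

set_option autoImplicit false

open Filter Topology Metric

namespace Pool.Agent.Lib.MPf11a48.SH.D

namespace MinM

/-- The relations between finitely many functions on `X` -/
def Rel {V J : Type} [Fintype J] (X : Set V) (m : J → V → ℂ) (c : J → ℂ) : Prop :=
  ∀ z ∈ X, ∑ j, c j * m j z = 0

/-- a support-minimal nonzero relation; every relation supported in its support is a multiple -/
theorem exists_min {V J : Type} [Fintype J] (X : Set V) (m : J → V → ℂ) (c : J → ℂ) (hc : c ≠ 0)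
    (hrel : Rel X m c) : ∃ b : J → ℂ, b ≠ 0 ∧ Rel X m b ∧
      ∀ y : J → ℂ, Rel X m y → (∀ j, b j = 0 → y j = 0) → ∃ μ : ℂ, ∀ j, y j = μ * b j := by
  classical
  -- minimal size of the support
  have hex : ∃ N : ℕ, ∃ b : J → ℂ, b ≠ 0 ∧ Rel X m b ∧
      (Finset.univ.filter fun j => b j ≠ 0).card = N := ⟨_, c, hc, hrel, rfl⟩
  obtain ⟨b, hb0, hb, hbN⟩ := Nat.find_spec hex
  refine ⟨b, hb0, hb, fun y hy hsub => ?_⟩
  obtain ⟨j0, hj0⟩ : ∃ j, b j ≠ 0 := by
    by_contra h
    push Not at h
    exact hb0 (funext h)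
  refine ⟨y j0 / b j0, ?_⟩
  by_contra hcon
  push Not at hcon
  obtain ⟨j1, hj1⟩ := hcon
  let d : J → ℂ := fun j => y j - y j0 / b j0 * b j
  have hd0 : d ≠ 0 := by
    intro h
    have h1 := congrFun h j1
    simp only [d, Pi.zero_apply] at h1
    exact hj1 (sub_eq_zero.1 h1)
  have hdrel : Rel X m d := by
    intro z hz
    have h1 := hy z hz
    have h2 := hb z hz
    calc ∑ j, d j * m j z = ∑ j, y j * m j z - y j0 / b j0 * ∑ j, b j * m j z := by
          rw [Finset.mul_sum, ← Finset.sum_sub_distrib]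
          exact Finset.sum_congr rfl fun j _ => by simp only [d]; ring
      _ = 0 := by rw [h1, h2]; ring
  have hlt : (Finset.univ.filter fun j => d j ≠ 0).card < Nat.find hex := by
    rw [← hbN]
    refine Finset.card_lt_card ?_
    rw [Finset.ssubset_iff_of_subset]
    · refine ⟨j0, by simp [hj0], ?_⟩
      simp only [Finset.mem_filter, Finset.mem_univ, true_and, not_not]
      simp only [d]
      field_simp
      ring
    · intro j hj
      simp only [Finset.mem_filter, Finset.mem_univ, true_and] at hj ⊢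
      intro hbj
      apply hj
      simp only [d, hbj, hsub j hbj]
      ring
  exact Nat.find_min hex hlt ⟨d, hd0, hdrel, rfl⟩

end MinM

end Pool.Agent.Lib.MPf11a48.SH.D
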